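import Pool.Agent.N343.Sch.Noise

set_option autoImplicit false

/-!
From a mixture of noise kernels to a feasible matrix.
-/

namespace Pool.Agent.N343.Sch

open Finset Matrix

/-- a symmetric nonnegative matrix with row sums at most `c` is at most `c * 1` -/
theorem posSemidef_sub {V : Type*} [Fintype V] [DecidableEq V] (B : Matrix V V ℝ) (c : ℝ)
    (hs : ∀ u v, B u v = B v u) (h0 : ∀ u v, 0 ≤ B u v) (hr : ∀ u, ∑ v, B u v ≤ c) :
    (c • (1 : Matrix V V ℝ) - B).PosSemidef := by
  rw [posSemidef_iff_dotProduct_mulVec]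
  refine ⟨?_, ?_⟩
  · ext u v
    simp only [conjTranspose_apply, Matrix.sub_apply, Matrix.smul_apply, smul_eq_mul, star_trivial]
    rw [hs v u, one_apply, one_apply]
    simp only [eq_comm]
  · intro z
    have e1 : star z ⬝ᵥ ((c • (1 : Matrix V V ℝ) - B) *ᵥ z) =
        c * ∑ u, z u ^ 2 - ∑ u, ∑ v, B u v * (z u * z v) := by
      rw [sub_mulVec, smul_mulVec, one_mulVec, dotProduct_sub, dotProduct_smul]
      congr 1
      · rw [dotProduct, smul_eq_mul]
        congr 1
        apply sum_congr rfl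
        intro u _
        simp [pow_two]
      · rw [dotProduct]
        apply sum_congr rfl
        intro u _
        rw [mulVec, dotProduct, mul_sum]
        apply sum_congr rfl
        intro v _
        simp
        ring
    rw [e1]
    have e2 : ∑ u, ∑ v, B u v * (z u * z v) ≤ ∑ u, ∑ v, B u v * ((z u ^ 2 + z v ^ 2) / 2) := by
      apply sum_le_sum; intro u _
      apply sum_le_sum; intro v _
      apply mul_le_mul_of_nonneg_left _ (h0 u v)
      nlinarith [sq_nonneg (z u - z v)]
    have e3 : ∑ u, ∑ v, B u v * ((z u ^ 2 + z v ^ 2) / 2) = ∑ u, z u ^ 2 * ∑ v, B u v := by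
      have h1 : ∑ u, ∑ v, B u v * ((z u ^ 2 + z v ^ 2) / 2) =
          (∑ u, ∑ v, B u v * z u ^ 2) / 2 + (∑ u, ∑ v, B u v * z v ^ 2) / 2 := by
        rw [← add_div, ← sum_add_distrib, sum_div]
        apply sum_congr rfl; intro u _
        rw [← sum_add_distrib, sum_div]
        apply sum_congr rfl; intro v _
        ring
      have h2 : ∑ u, ∑ v, B u v * z v ^ 2 = ∑ u, ∑ v, B u v * z u ^ 2 := by
        rw [sum_comm]
        apply sum_congr rfl; intro u _
        apply sum_congr rfl; intro v _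
        rw [hs]
      rw [h1, h2, add_halves]
      apply sum_congr rfl; intro u _
      rw [mul_sum]
      apply sum_congr rfl; intro v _
      ring
    have e4 : ∑ u, z u ^ 2 * ∑ v, B u v ≤ ∑ u, z u ^ 2 * c := by
      apply sum_le_sum; intro u _
      exact mul_le_mul_of_nonneg_left (hr u) (sq_nonneg _)
    have e5 : ∑ u, z u ^ 2 * c = c * ∑ u, z u ^ 2 := by
      rw [← sum_mul, mul_comm]
    linarith

/-- mixtures of products of noise kernels with nonnegative coefficients are positive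
semidefinite -/
theorem posSemidef_mix {n : ℕ} {J : Type*} [Fintype J] (w s t : J → ℝ)
    (h : ∀ k l : ℕ, 0 ≤ ∑ j, w j * (s j ^ k * t j ^ l)) :
    (Matrix.of fun u v : (Fin n → ℤˣ) × (Fin n → ℤˣ) =>
      ∑ j, w j * (P (s j) u.1 v.1 * P (t j) u.2 v.2)).PosSemidef := by
  have e : (Matrix.of fun u v : (Fin n → ℤˣ) × (Fin n → ℤˣ) =>
      ∑ j, w j * (P (s j) u.1 v.1 * P (t j) u.2 v.2)) =
      ∑ S : Finset (Fin n), ∑ T : Finset (Fin n),
        (((1 / 2) ^ n * (1 / 2) ^ n) * ∑ j, w j * (s j ^ S.card * t j ^ T.card)) •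
          vecMulVec (fun u : (Fin n → ℤˣ) × (Fin n → ℤˣ) => chi S u.1 * chi T u.2)
            (star (fun u : (Fin n → ℤˣ) × (Fin n → ℤˣ) => chi S u.1 * chi T u.2)) := by
    ext u v
    rw [of_apply, Matrix.sum_apply]
    simp only [Matrix.sum_apply, Matrix.smul_apply, vecMulVec_apply, Pi.star_apply, star_trivial,
      smul_eq_mul]
    have h1 : ∀ j, w j * (P (s j) u.1 v.1 * P (t j) u.2 v.2) =
        ∑ S : Finset (Fin n), ∑ T : Finset (Fin n), w j *
          (((1 / 2) ^ n * s j ^ S.card * (chi S u.1 * chi S v.1)) *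
            ((1 / 2) ^ n * t j ^ T.card * (chi T u.2 * chi T v.2))) := by
      intro j
      rw [P_fourier, P_fourier, sum_mul_sum, mul_sum]
      apply sum_congr rfl; intro S _
      rw [mul_sum]
    rw [sum_congr rfl fun j _ => h1 j, sum_comm]
    apply sum_congr rfl; intro S _
    rw [sum_comm]
    apply sum_congr rfl; intro T _
    rw [mul_sum, sum_mul]
    apply sum_congr rfl; intro j _
    ring
  rw [e]
  apply posSemidef_sum
  intro S _
  apply posSemidef_sum
  intro T _
  apply (posSemidef_vecMulVec_self_star _).smul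
  exact mul_nonneg (by positivity) (h _ _)

/-- the inner products of both components are positive -/
def Bad {n : ℕ} (u v : (Fin n → ℤˣ) × (Fin n → ℤˣ)) : Prop :=
  0 < ∑ i, ((u.1 i : ℤˣ) : ℤ) * ((v.1 i : ℤˣ) : ℤ) ∧
    0 < ∑ i, ((u.2 i : ℤˣ) : ℤ) * ((v.2 i : ℤˣ) : ℤ)

theorem bad_symm {n : ℕ} {u v : (Fin n → ℤˣ) × (Fin n → ℤˣ)} : Bad u v ↔ Bad v u := by
  unfold Bad
  simp only [mul_comm]

theorem bad_self {n : ℕ} (hn : 1 ≤ n) (u : (Fin n → ℤˣ) × (Fin n → ℤˣ)) : Bad u u := by
  have h : ∀ x : Fin n → ℤˣ, 0 < ∑ i, ((x i : ℤˣ) : ℤ) * ((x i : ℤˣ) : ℤ) := by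
    intro x
    have : ∀ i : Fin n, ((x i : ℤˣ) : ℤ) * ((x i : ℤˣ) : ℤ) = 1 := by
      intro i
      rcases Int.units_eq_one_or (x i) with h | h <;> rw [h] <;> norm_num
    rw [sum_congr rfl fun i _ => this i]
    simp
    omega
  exact ⟨h _, h _⟩

theorem bad_of_adj {n : ℕ} (hn : 1 ≤ n) {u v : (Fin n → ℤˣ) × (Fin n → ℤˣ)}
    (h : (strongProduct (acuteGraph n) (acuteGraph n)).Adj u v) : Bad u v := by
  obtain ⟨-, h1, h2⟩ := h
  constructor
  · rcases h1 with h1 | h1
    · rw [h1]; exact (bad_self hn v).1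
    · exact h1.2
  · rcases h2 with h2 | h2
    · rw [h2]; exact (bad_self hn v).2
    · exact h2.2

theorem ite_prod {α β : Type*} [DecidableEq α] [DecidableEq β] (u v : α × β) : (if u = v then (1 : ℝ) else 0) =
    (if u.1 = v.1 then 1 else 0) * (if u.2 = v.2 then 1 else 0) := by
  rcases u with ⟨a, b⟩
  rcases v with ⟨c, d⟩
  by_cases h1 : a = c <;> by_cases h2 : b = d <;> simp [h1, h2]

open scoped Classical in
theorem core {n : ℕ} (hn : 1 ≤ n) {J : Type*} [Fintype J] (w s t : J → ℝ) (h : ℝ)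
    (h0 : 0 ≤ h) (h1 : h ≤ 1)
    (hw : ∀ j, 0 ≤ w j) (hs : ∀ j, |s j| ≤ 1) (ht : ∀ j, |t j| ≤ 1)
    (hst : ∀ j, s j ≤ -h ∨ t j ≤ -h)
    (hm : ∀ k l : ℕ, -(1 / 2) ≤ ∑ j, w j * (s j ^ k * t j ^ l))
    (htail : (∑ j, w j) * Real.exp (-(n * h ^ 2 / 4)) ≤ 1 / 2) :
    ∃ a ∈ schrijverValues (strongProduct (acuteGraph n) (acuteGraph n)), ∑ j, w j ≤ a := by
  set V := (Fin n → ℤˣ) × (Fin n → ℤˣ) with hV
  let M : Matrix V V ℝ := Matrix.of fun u v => ∑ j, w j * (P (s j) u.1 v.1 * P (t j) u.2 v.2)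
  have hM : ∀ u v, M u v = ∑ j, w j * (P (s j) u.1 v.1 * P (t j) u.2 v.2) := fun _ _ => rfl
  have hM0 : ∀ u v, 0 ≤ M u v := fun u v => sum_nonneg fun j _ =>
    mul_nonneg (hw j) (mul_nonneg (P_nonneg (hs j) _ _) (P_nonneg (ht j) _ _))
  have hMs : ∀ u v, M u v = M v u := fun u v => by
    rw [hM, hM]
    apply sum_congr rfl; intro j _
    rw [P_symm (s j), P_symm (t j)]
  -- `M + 1/2`
  have hM1 : (M + (1 / 2 : ℝ) • (1 : Matrix V V ℝ)).PosSemidef := by
    have e : M + (1 / 2 : ℝ) • (1 : Matrix V V ℝ) = (Matrix.of fun u v : V =>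
        ∑ j : Option J, (j.elim (1 / 2) w) *
          (P (j.elim 1 s) u.1 v.1 * P (j.elim 1 t) u.2 v.2)) := by
      ext u v
      rw [Matrix.add_apply, of_apply, Fintype.sum_option, hM, add_comm]
      congr 1
      simp only [Option.elim_none, Matrix.smul_apply, one_apply, smul_eq_mul, P_one]
      congr 1
      exact ite_prod u v
    rw [e]
    apply posSemidef_mix
    intro k l
    rw [Fintype.sum_option]
    simp only [Option.elim_none, Option.elim_some, one_pow, mul_one]
    linarith [hm k l]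
  -- the bad part
  let B : Matrix V V ℝ := Matrix.of fun u v => if Bad u v then M u v else 0
  have hB : ∀ u v, B u v = if Bad u v then M u v else 0 := fun _ _ => rfl
  have hB0 : ∀ u v, 0 ≤ B u v := fun u v => by
    rw [hB]; split_ifs; exacts [hM0 u v, le_rfl]
  have hBs : ∀ u v, B u v = B v u := fun u v => by
    rw [hB, hB, hMs u v]
    simp only [bad_symm (u := u) (v := v)]
  have htl : ∀ (ρ : ℝ) (x : Fin n → ℤˣ), |ρ| ≤ 1 → ρ ≤ -h → ∑ y : Fin n → ℤˣ,
      (if 0 < ∑ i, ((x i : ℤˣ) : ℤ) * ((y i : ℤˣ) : ℤ) then P ρ x y else 0) ≤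
        Real.exp (-(n * h ^ 2 / 4)) := by
    intro ρ x h3 h4
    convert P_tail h0 h1 h4 (abs_le.1 h3).1 x
  have hBr : ∀ u, ∑ v, B u v ≤ 1 / 2 := by
    intro u
    refine le_trans ?_ htail
    have e1 : ∑ v, B u v = ∑ j, w j * ∑ v : V,
        (if Bad u v then P (s j) u.1 v.1 * P (t j) u.2 v.2 else 0) := by
      have : ∀ v, B u v = ∑ j, w j *
          (if Bad u v then P (s j) u.1 v.1 * P (t j) u.2 v.2 else 0) := by
        intro v
        rw [hB, hM]
        split_ifs
        · rfl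
        · simp
      rw [sum_congr rfl fun v _ => this v, sum_comm]
      apply sum_congr rfl; intro j _
      rw [mul_sum]
    rw [e1, sum_mul]
    apply sum_le_sum
    intro j _
    apply mul_le_mul_of_nonneg_left _ (hw j)
    rcases hst j with hj | hj
    · calc ∑ v : V, (if Bad u v then P (s j) u.1 v.1 * P (t j) u.2 v.2 else 0)
          ≤ ∑ v : V, (if 0 < ∑ i, ((u.1 i : ℤˣ) : ℤ) * ((v.1 i : ℤˣ) : ℤ) then
              P (s j) u.1 v.1 else 0) * P (t j) u.2 v.2 := by
            apply sum_le_sum; intro v _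
            have h5 := P_nonneg (hs j) u.1 v.1
            have h6 := P_nonneg (ht j) u.2 v.2
            by_cases hb : Bad u v
            · rw [if_pos hb, if_pos hb.1]
            · rw [if_neg hb]
              split_ifs
              · exact mul_nonneg h5 h6
              · simp
        _ = (∑ y : Fin n → ℤˣ, (if 0 < ∑ i, ((u.1 i : ℤˣ) : ℤ) * ((y i : ℤˣ) : ℤ) then
              P (s j) u.1 y else 0)) * ∑ y, P (t j) u.2 y := by
            rw [sum_mul_sum, Fintype.sum_prod_type]
        _ ≤ _ := by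
            rw [P_sum, mul_one]
            exact htl _ _ (hs j) hj
    · calc ∑ v : V, (if Bad u v then P (s j) u.1 v.1 * P (t j) u.2 v.2 else 0)
          ≤ ∑ v : V, P (s j) u.1 v.1 * (if 0 < ∑ i, ((u.2 i : ℤˣ) : ℤ) * ((v.2 i : ℤˣ) : ℤ) then
              P (t j) u.2 v.2 else 0) := by
            apply sum_le_sum; intro v _
            have h5 := P_nonneg (hs j) u.1 v.1
            have h6 := P_nonneg (ht j) u.2 v.2
            by_cases hb : Bad u v
            · rw [if_pos hb, if_pos hb.2]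
            · rw [if_neg hb]
              split_ifs
              · exact mul_nonneg h5 h6
              · simp
        _ = (∑ y, P (s j) u.1 y) * ∑ y : Fin n → ℤˣ,
              (if 0 < ∑ i, ((u.2 i : ℤˣ) : ℤ) * ((y i : ℤˣ) : ℤ) then P (t j) u.2 y else 0) := by
            rw [sum_mul_sum, Fintype.sum_prod_type]
        _ ≤ _ := by
            rw [P_sum, one_mul]
            exact htl _ _ (ht j) hj
  have hB1 := posSemidef_sub B (1 / 2) hBs hB0 hBr
  -- the matrix
  have hX := hM1.add hB1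
  have hcard : (0 : ℝ) < Fintype.card V := by
    have : 0 < Fintype.card V := Fintype.card_pos
    exact_mod_cast this
  let X : Matrix V V ℝ := (Fintype.card V : ℝ)⁻¹ • (M + (1 / 2 : ℝ) • (1 : Matrix V V ℝ) +
    ((1 / 2 : ℝ) • (1 : Matrix V V ℝ) - B))
  have hXe : ∀ u v, X u v = (Fintype.card V : ℝ)⁻¹ * (M u v - B u v + if u = v then 1 else 0) := by
    intro u v
    simp only [X, Matrix.smul_apply, Matrix.add_apply, Matrix.sub_apply, one_apply, smul_eq_mul]
    split_ifs <;> ring
  have hdiag : ∀ u, X u u = (Fintype.card V : ℝ)⁻¹ := by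
    intro u
    rw [hXe, hB, if_pos (bad_self hn u), if_pos rfl]
    ring
  have hrow : ∀ u, ∑ v, M u v = ∑ j, w j := by
    intro u
    rw [sum_congr rfl fun v _ => hM u v, sum_comm]
    apply sum_congr rfl; intro j _
    rw [← mul_sum, Fintype.sum_prod_type]
    have : ∑ x : Fin n → ℤˣ, ∑ y : Fin n → ℤˣ, P (s j) u.1 x * P (t j) u.2 y = 1 := by
      rw [← sum_mul_sum, P_sum, P_sum, one_mul]
    rw [this, mul_one]
  refine ⟨∑ u, ∑ v, X u v, ⟨X, hX.smul (inv_nonneg.2 hcard.le), ?_, ?_, ?_, rfl⟩, ?_⟩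
  · intro u v
    rw [hXe]
    apply mul_nonneg (inv_nonneg.2 hcard.le)
    have : 0 ≤ M u v - B u v := by
      rw [hB]; split_ifs
      · simp
      · simpa using hM0 u v
    split_ifs <;> linarith
  · rw [trace, sum_congr rfl fun u _ => show X.diag u = _ from hdiag u, sum_const, card_univ,
      nsmul_eq_mul, mul_inv_cancel₀ hcard.ne']
  · intro u v huv
    rw [hXe, hB, if_pos (bad_of_adj hn huv), if_neg huv.ne]
    simp
  · have hsum : ∀ u, (Fintype.card V : ℝ)⁻¹ * (∑ j, w j) ≤ ∑ v, X u v := by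
      intro u
      rw [sum_congr rfl fun v _ => hXe u v, ← mul_sum]
      apply mul_le_mul_of_nonneg_left _ (inv_nonneg.2 hcard.le)
      rw [sum_add_distrib, sum_sub_distrib, hrow]
      have h9 : ∑ v : V, (if u = v then (1 : ℝ) else 0) = 1 := by
        rw [Finset.sum_ite_eq]; simp
      rw [h9]
      linarith [hBr u]
    calc ∑ j, w j = ∑ _u : V, (Fintype.card V : ℝ)⁻¹ * (∑ j, w j) := by
          rw [sum_const, card_univ, nsmul_eq_mul, ← mul_assoc, mul_inv_cancel₀ hcard.ne', one_mul]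
      _ ≤ _ := sum_le_sum fun u _ => hsum u

/-- the values of the Schrijver program are bounded by the number of vertices -/
theorem values_le {V : Type*} [Fintype V] (G : SimpleGraph V) {a : ℝ}
    (ha : a ∈ schrijverValues G) : a ≤ Fintype.card V := by
  classical
  obtain ⟨X, hX, h0, htr, -, rfl⟩ := ha
  have key : ∀ u v, X u v ≤ (X u u + X v v) / 2 := by
    intro u v
    have h1 := (posSemidef_iff_dotProduct_mulVec.1 hX).2 (Pi.single u 1 - Pi.single v 1)
    have hs : X v u = X u v := by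
      have := hX.1.apply u v
      simpa using this
    rw [star_trivial, mulVec_sub, sub_dotProduct, dotProduct_sub, dotProduct_sub] at h1
    simp only [mulVec_single_one, single_one_dotProduct, col_apply, hs] at h1
    linarith
  calc ∑ u, ∑ v, X u v ≤ ∑ u, ∑ v, (X u u + X v v) / 2 :=
        sum_le_sum fun u _ => sum_le_sum fun v _ => key u v
    _ = Fintype.card V := by
        have htr' : ∑ u, X u u = 1 := htr
        have e1 : ∀ u, ∑ v, (X u u + X v v) / 2 = (Fintype.card V * X u u + 1) / 2 := by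
          intro u
          rw [← sum_div, sum_add_distrib, htr', sum_const, card_univ, nsmul_eq_mul]
        rw [sum_congr rfl fun u _ => e1 u, ← sum_div, sum_add_distrib, ← mul_sum, htr', sum_const,
          card_univ, nsmul_eq_mul]
        ring

theorem le_schrijver {V : Type*} [Fintype V] (G : SimpleGraph V) {a : ℝ}
    (ha : a ∈ schrijverValues G) : a ≤ schrijver G :=
  le_csSup ⟨Fintype.card V, fun _ hb => values_le G hb⟩ ha

end Pool.Agent.N343.Sch
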