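import Mathlib

set_option autoImplicit false

/-!
The graphs `G_n`, strong products of graphs, and the Schrijver number.
-/

namespace Pool.Agent.N343.Sch

open Finset Matrix

/-- the graph on `{1, -1} ^ n` in which distinct `x`, `y` are adjacent iff `⟨x, y⟩ > 0` -/
def acuteGraph (n : ℕ) : SimpleGraph (Fin n → ℤˣ) where
  Adj x y := x ≠ y ∧ 0 < ∑ i, ((x i : ℤˣ) : ℤ) * ((y i : ℤˣ) : ℤ)
  symm := ⟨fun x y h => ⟨h.1.symm, by
    simpa only [mul_comm] using h.2⟩⟩
  loopless := ⟨fun _ h => h.1 rfl⟩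

/-- the strong product of two graphs -/
def strongProduct {V W : Type*} (G : SimpleGraph V) (H : SimpleGraph W) : SimpleGraph (V × W) where
  Adj p q := p ≠ q ∧ (p.1 = q.1 ∨ G.Adj p.1 q.1) ∧ (p.2 = q.2 ∨ H.Adj p.2 q.2)
  symm := ⟨fun _ _ h => ⟨h.1.symm, h.2.1.imp Eq.symm (fun h => h.symm),
    h.2.2.imp Eq.symm (fun h => h.symm)⟩⟩
  loopless := ⟨fun _ h => h.1 rfl⟩

/-- the values `∑ X u v` for the feasible matrices `X` of the Schrijver program of `G` -/
def schrijverValues {V : Type*} [Fintype V] (G : SimpleGraph V) : Set ℝ :=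
  {t | ∃ X : Matrix V V ℝ, X.PosSemidef ∧ (∀ u v, 0 ≤ X u v) ∧ X.trace = 1 ∧
    (∀ u v, G.Adj u v → X u v = 0) ∧ t = ∑ u, ∑ v, X u v}

/-- the Schrijver number `ϑ'(G)` -/
noncomputable def schrijver {V : Type*} [Fintype V] (G : SimpleGraph V) : ℝ :=
  sSup (schrijverValues G)

end Pool.Agent.N343.Sch
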