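import Pool.Agent.N343.Sch.Core

set_option autoImplicit false

/-!
The mixture of noise kernels.
-/

namespace Pool.Agent.N343.Sch

open Finset Matrix

/-- `8 ^ (2 k m - k ^ 2)` -/
noncomputable def am (k m : ℕ) : ℝ := (1 / 8) ^ (k ^ 2) * (64 ^ k) ^ m

theorem am_nonneg (k m : ℕ) : 0 ≤ am k m := by unfold am; positivity

theorem am_self (k : ℕ) : am k k = 8 ^ (k ^ 2) := by
  unfold am
  rw [← pow_mul, ← pow_two, show (64 : ℝ) = 8 * 8 by norm_num, mul_pow, ← mul_assoc, ← mul_pow]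
  norm_num

theorem am_add (k i : ℕ) : am (k + i) k = 8 ^ (k ^ 2) * (1 / 8) ^ (i ^ 2) := by
  unfold am
  rw [← pow_mul, show (64 : ℝ) = 8 * 8 by norm_num, mul_pow,
    show (k + i) ^ 2 = (k + i) * k + i * k + i ^ 2 by ring,
    show (k + i) * k = k ^ 2 + i * k by ring, pow_add, pow_add, pow_add, pow_add]
  have h : ∀ a : ℕ, ((1 : ℝ) / 8) ^ a * 8 ^ a = 1 := by
    intro a; rw [← mul_pow]; norm_num
  have h1 := h (k ^ 2)
  have h2 := h (i * k)
  linear_combination (8 ^ (k ^ 2) * (1 / 8 : ℝ) ^ (i ^ 2)) * ((1 / 8 : ℝ) ^ (i * k) * 8 ^ (i * k)) *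
    ((1 / 8 : ℝ) ^ (i * k) * 8 ^ (i * k)) * h1 + (8 ^ (k ^ 2) * (1 / 8 : ℝ) ^ (i ^ 2)) *
    ((1 / 8 : ℝ) ^ (i * k) * 8 ^ (i * k) + 1) * h2

theorem am_sub (k i : ℕ) : am k (k + i) = 8 ^ ((k + i) ^ 2) * (1 / 8) ^ (i ^ 2) := by
  unfold am
  rw [← pow_mul, show (64 : ℝ) = 8 * 8 by norm_num, mul_pow,
    show (k + i) ^ 2 = k ^ 2 + i * k + i * k + i ^ 2 by ring,
    show k * (k + i) = k ^ 2 + i * k by ring, pow_add, pow_add, pow_add, pow_add]
  have h : ∀ a : ℕ, ((1 : ℝ) / 8) ^ a * 8 ^ a = 1 := by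
    intro a; rw [← mul_pow]; norm_num
  have h1 := h (k ^ 2)
  have h2 := h (i ^ 2)
  linear_combination (8 ^ (k ^ 2) * (8 : ℝ) ^ (i * k) * 8 ^ (i * k)) * h1 -
    (8 ^ (k ^ 2) * (8 : ℝ) ^ (i * k) * 8 ^ (i * k)) * h2

theorem geom_aux (m : ℕ) : ∑ i ∈ range m, ((1 : ℝ) / 8) ^ ((i + 1) ^ 2) ≤ 1 / 7 := by
  have h1 : ∀ m : ℕ, ∑ i ∈ range m, ((1 : ℝ) / 8) ^ (i + 1) = 1 / 7 - 1 / 7 * (1 / 8) ^ m := by
    intro m
    induction m with
    | zero => norm_num
    | succ m ih => rw [sum_range_succ, ih]; ring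
  calc ∑ i ∈ range m, ((1 : ℝ) / 8) ^ ((i + 1) ^ 2) ≤ ∑ i ∈ range m, ((1 : ℝ) / 8) ^ (i + 1) := by
        apply sum_le_sum
        intro i _
        apply pow_le_pow_of_le_one (by norm_num) (by norm_num)
        nlinarith
    _ ≤ 1 / 7 := by
        rw [h1]
        have : (0 : ℝ) ≤ 1 / 7 * (1 / 8) ^ m := by positivity
        linarith

theorem am_sum (D m : ℕ) (hm : m ≤ D) :
    ∑ k ∈ range (D + 1), am k m ≤ 9 / 7 * 8 ^ (m ^ 2) := by
  obtain ⟨j, rfl⟩ := Nat.exists_eq_add_of_le hm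
  rw [show m + j + 1 = m + 1 + j by ring, sum_range_add, sum_range_succ, am_self,
    ← sum_range_reflect]
  have h1 : ∑ i ∈ range m, am (m - 1 - i) m = 8 ^ (m ^ 2) * ∑ i ∈ range m, (1 / 8) ^ ((i + 1) ^ 2) := by
    rw [mul_sum]
    apply sum_congr rfl
    intro i hi
    have hi' := mem_range.1 hi
    obtain ⟨a, rfl⟩ : ∃ a, m = a + (i + 1) := ⟨m - (i + 1), by omega⟩
    rw [show a + (i + 1) - 1 - i = a by omega, am_sub]
  have h2 : ∑ i ∈ range j, am (m + 1 + i) m = 8 ^ (m ^ 2) * ∑ i ∈ range j, (1 / 8) ^ ((i + 1) ^ 2) := by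
    rw [mul_sum]
    apply sum_congr rfl
    intro i _
    rw [show m + 1 + i = m + (i + 1) by ring, am_add]
  rw [h1, h2]
  have h3 := geom_aux m
  have h4 := geom_aux j
  have h5 : (0 : ℝ) < 8 ^ (m ^ 2) := by positivity
  nlinarith

theorem sum_prod_mul {m : ℕ} (f g : Fin m → ℝ) :
    ∑ p : Fin m × Fin m, f p.1 * g p.2 = (∑ i, f i) * ∑ i, g i := by
  rw [sum_mul_sum, Fintype.sum_prod_type]

/-- the signs -/
noncomputable def s1 (k l : ℕ) : ℝ := if ¬ Even k ∧ Even l then 1 else -1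

/-- the signs -/
noncomputable def s2 (k l : ℕ) : ℝ := if Even k ∧ ¬ Even l then 1 else -1

theorem s1_cases (k l : ℕ) : s1 k l = 1 ∨ s1 k l = -1 := by unfold s1; split_ifs <;> simp

theorem s2_cases (k l : ℕ) : s2 k l = 1 ∨ s2 k l = -1 := by unfold s2; split_ifs <;> simp

theorem s_neg (k l : ℕ) : s1 k l = -1 ∨ s2 k l = -1 := by
  unfold s1 s2
  by_cases h1 : Even k <;> by_cases h2 : Even l <;> simp [h1, h2]

theorem s_sign (k l : ℕ) : s1 k l ^ k * s2 k l ^ l = 1 := by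
  unfold s1 s2
  by_cases h1 : Even k <;> by_cases h2 : Even l
  · simp [h1, h2, h1.neg_one_pow, h2.neg_one_pow]
  · simp [h1, h2, h1.neg_one_pow]
  · simp [h1, h2, h2.neg_one_pow]
  · simp [h1, h2, (Nat.not_even_iff_odd.1 h1).neg_one_pow, (Nat.not_even_iff_odd.1 h2).neg_one_pow]

theorem abs_pow_sign {a : ℝ} (h : a = 1 ∨ a = -1) (m : ℕ) : |a ^ m| = 1 := by
  rw [abs_pow]
  rcases h with rfl | rfl <;> simp

/-- the moments of low degree are nonnegative -/
theorem low (D a b : ℕ) (ha : a ≤ D) (hb : b ≤ D) :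
    0 ≤ ∑ p : Fin (D + 1) × Fin (D + 1), (s1 p.1 p.2 ^ a * s2 p.1 p.2 ^ b) *
      (am p.1 a * am p.2 b) := by
  have hfull : ∑ p : Fin (D + 1) × Fin (D + 1), am p.1 a * am p.2 b ≤
      81 / 49 * (8 ^ (a ^ 2) * 8 ^ (b ^ 2)) := by
    rw [sum_prod_mul (fun i : Fin (D + 1) => am i a) (fun i : Fin (D + 1) => am i b)]
    have h1 := am_sum D a ha
    have h2 := am_sum D b hb
    rw [sum_range] at h1 h2
    have h3 : 0 ≤ ∑ i : Fin (D + 1), am i b := sum_nonneg fun i _ => am_nonneg _ _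
    calc _ ≤ (9 / 7 * 8 ^ (a ^ 2)) * (9 / 7 * 8 ^ (b ^ 2)) :=
          mul_le_mul h1 h2 h3 (by positivity)
      _ = _ := by ring
  set p0 : Fin (D + 1) × Fin (D + 1) := (⟨a, by omega⟩, ⟨b, by omega⟩) with hp0
  rw [← add_sum_erase univ _ (mem_univ p0)]
  rw [← add_sum_erase univ _ (mem_univ p0)] at hfull
  have e0 : (s1 p0.1 p0.2 ^ a * s2 p0.1 p0.2 ^ b) = 1 := s_sign a b
  have e1 : am p0.1 a * am p0.2 b = 8 ^ (a ^ 2) * 8 ^ (b ^ 2) := by
    show am a a * am b b = _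
    rw [am_self, am_self]
  rw [e0, e1]
  rw [e1] at hfull
  have h2 : -∑ p ∈ univ.erase p0, am p.1 a * am p.2 b ≤
      ∑ p ∈ univ.erase p0, (s1 p.1 p.2 ^ a * s2 p.1 p.2 ^ b) * (am p.1 a * am p.2 b) := by
    rw [← sum_neg_distrib]
    apply sum_le_sum
    intro p _
    have h3 : |s1 p.1 p.2 ^ a * s2 p.1 p.2 ^ b| = 1 := by
      rw [abs_mul, abs_pow_sign (s1_cases _ _), abs_pow_sign (s2_cases _ _), one_mul]
    have h4 : -1 ≤ s1 p.1 p.2 ^ a * s2 p.1 p.2 ^ b := by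
      have := neg_abs_le (s1 p.1 p.2 ^ a * s2 p.1 p.2 ^ b)
      rwa [h3] at this
    have h5 := mul_nonneg (am_nonneg p.1 a) (am_nonneg p.2 b)
    nlinarith
  have h6 : (0 : ℝ) < 8 ^ (a ^ 2) * 8 ^ (b ^ 2) := by positivity
  linarith

theorem main_bound {n : ℕ} (hn : 1 ≤ n) :
    Real.exp (Real.log n ^ 2 / 267) / 4 ≤
      schrijver (strongProduct (acuteGraph n) (acuteGraph n)) := by
  have hn0 : (0 : ℝ) < n := by exact_mod_cast hn
  have hn1 : (1 : ℝ) ≤ n := by exact_mod_cast hn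
  set D := Nat.log (64 ^ 8) n with hD
  -- `m ^ 8 = n`
  set m : ℝ := (n : ℝ) ^ ((1 : ℝ) / 8) with hm
  have hm0 : 0 < m := Real.rpow_pos_of_pos hn0 _
  have hm1 : 1 ≤ m := Real.one_le_rpow hn1 (by norm_num)
  have hm8 : m ^ 8 = n := by
    rw [hm, ← Real.rpow_natCast, ← Real.rpow_mul hn0.le]
    norm_num
  have hDn : (64 ^ 8) ^ D ≤ n := Nat.pow_log_le_self _ (by omega)
  have h64 : (64 : ℝ) ^ D ≤ m := by
    have h1 : ((64 : ℝ) ^ D) ^ 8 ≤ m ^ 8 := by
      rw [hm8, ← pow_mul, mul_comm, pow_mul]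
      exact_mod_cast hDn
    exact le_of_pow_le_pow_left₀ (by norm_num) hm0.le h1
  have hlog : Real.log n = 8 * Real.log m := by
    rw [← hm8, Real.log_pow]; norm_num
  have hL0 : 0 ≤ Real.log m := Real.log_nonneg hm1
  have hDL : (D : ℝ) ≤ Real.log m := by
    have h1 : Real.log ((64 : ℝ) ^ D) ≤ Real.log m := Real.log_le_log (by positivity) h64
    rw [Real.log_pow] at h1
    have h2 : (1 : ℝ) ≤ Real.log 64 := by
      rw [Real.le_log_iff_exp_le (by norm_num)]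
      have := Real.exp_one_lt_d9
      linarith
    have h3 : (0 : ℝ) ≤ D := Nat.cast_nonneg _
    nlinarith
  set r : ℝ := 1 / m ^ 2 with hr
  have hr0 : 0 < r := by positivity
  have hr1 : r ≤ 1 := by
    rw [hr, div_le_one (by positivity)]
    exact one_le_pow₀ hm1
  have hrm : r * 64 ^ D ≤ 1 / m := by
    calc r * 64 ^ D ≤ r * m := mul_le_mul_of_nonneg_left h64 hr0.le
      _ = 1 / m := by rw [hr]; field_simp
  set W : ℝ := m ^ (D + 1) / 4 with hW
  have hW0 : 0 < W := by positivity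
  -- the mixture
  let w : Fin (D + 1) × Fin (D + 1) → ℝ := fun p => W * (am p.1 0 * am p.2 0)
  let s : Fin (D + 1) × Fin (D + 1) → ℝ := fun p => r * (s1 p.1 p.2 * 64 ^ (p.1 : ℕ))
  let t : Fin (D + 1) × Fin (D + 1) → ℝ := fun p => r * (s2 p.1 p.2 * 64 ^ (p.2 : ℕ))
  have hle : ∀ i : Fin (D + 1), r * 64 ^ (i : ℕ) ≤ 1 / m := by
    intro i
    refine le_trans (mul_le_mul_of_nonneg_left ?_ hr0.le) hrm
    exact pow_le_pow_right₀ (by norm_num) (by omega)
  have h1m : 1 / m ≤ 1 := by rw [div_le_one hm0]; exact hm1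
  have habs : ∀ {a : ℝ}, (a = 1 ∨ a = -1) → ∀ i : Fin (D + 1),
      |r * (a * 64 ^ (i : ℕ))| = r * 64 ^ (i : ℕ) := by
    intro a ha i
    rw [abs_mul, abs_mul, abs_of_pos hr0, abs_of_pos (show (0 : ℝ) < 64 ^ (i : ℕ) by positivity)]
    rcases ha with rfl | rfl <;> simp
  have hs : ∀ p, |s p| = r * 64 ^ (p.1 : ℕ) := fun p => habs (s1_cases _ _) p.1
  have ht : ∀ p, |t p| = r * 64 ^ (p.2 : ℕ) := fun p => habs (s2_cases _ _) p.2
  have hw0 : ∀ p, 0 ≤ w p := fun p => mul_nonneg hW0.le (mul_nonneg (am_nonneg _ _) (am_nonneg _ _))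
  have hwsum : ∑ p, w p ≤ m ^ (D + 1) / 2 := by
    show ∑ p : Fin (D + 1) × Fin (D + 1), W * (am p.1 0 * am p.2 0) ≤ _
    rw [← mul_sum, sum_prod_mul (fun i : Fin (D + 1) => am i 0) (fun i : Fin (D + 1) => am i 0)]
    have h1 := am_sum D 0 (Nat.zero_le _)
    rw [sum_range] at h1
    have h3 : 0 ≤ ∑ i : Fin (D + 1), am i 0 := sum_nonneg fun i _ => am_nonneg _ _
    have h4 : (∑ i : Fin (D + 1), am i 0) * ∑ i : Fin (D + 1), am i 0 ≤ 2 := by
      norm_num at h1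
      nlinarith
    rw [hW]
    nlinarith [pow_pos hm0 (D + 1)]
  have hwone : W ≤ ∑ p, w p := by
    have h1 : w (0, 0) ≤ ∑ p, w p := single_le_sum (fun p _ => hw0 p) (mem_univ _)
    have h2 : w (0, 0) = W := by
      simp [w, am]
    linarith
  obtain ⟨a, ha, hle'⟩ := core hn w s t r hr0.le hr1 hw0
    (fun p => by rw [hs]; exact (hle p.1).trans h1m)
    (fun p => by rw [ht]; exact (hle p.2).trans h1m)
    (fun p => by
      have h64' : ∀ i : ℕ, (1 : ℝ) ≤ 64 ^ i := fun i => one_le_pow₀ (by norm_num)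
      rcases s_neg p.1 p.2 with h | h
      · left
        show r * (s1 p.1 p.2 * 64 ^ (p.1 : ℕ)) ≤ -r
        rw [h]
        nlinarith [h64' p.1]
      · right
        show r * (s2 p.1 p.2 * 64 ^ (p.2 : ℕ)) ≤ -r
        rw [h]
        nlinarith [h64' p.2])
    (fun k l => by
      by_cases hkl : k ≤ D ∧ l ≤ D
      · have e : ∑ p, w p * (s p ^ k * t p ^ l) = W * (r ^ k * r ^ l) *
            ∑ p : Fin (D + 1) × Fin (D + 1), (s1 p.1 p.2 ^ k * s2 p.1 p.2 ^ l) *
              (am p.1 k * am p.2 l) := by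
          rw [mul_sum]
          apply sum_congr rfl
          intro p _
          simp only [w, s, t, am, mul_pow, pow_zero, mul_one]
          ring
        rw [e]
        have := mul_nonneg (mul_nonneg hW0.le (mul_nonneg (pow_nonneg hr0.le k)
          (pow_nonneg hr0.le l))) (low D k l hkl.1 hkl.2)
        linarith
      · have hb : ∀ p, |s p ^ k * t p ^ l| ≤ (1 / m) ^ (D + 1) := by
          intro p
          rw [abs_mul, abs_pow, abs_pow, hs, ht]
          have g1 : 0 ≤ r * 64 ^ (p.1 : ℕ) := by positivity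
          have g2 : 0 ≤ r * 64 ^ (p.2 : ℕ) := by positivity
          have g3 : (0 : ℝ) ≤ 1 / m := by positivity
          rcases not_and_or.1 hkl with h | h
          · calc (r * 64 ^ (p.1 : ℕ)) ^ k * (r * 64 ^ (p.2 : ℕ)) ^ l
                ≤ (1 / m) ^ k * 1 := by
                  apply mul_le_mul (pow_le_pow_left₀ g1 (hle p.1) _)
                    (pow_le_one₀ g2 ((hle p.2).trans h1m)) (pow_nonneg g2 _) (pow_nonneg g3 _)
              _ ≤ (1 / m) ^ (D + 1) := by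
                  rw [mul_one]
                  exact pow_le_pow_of_le_one g3 h1m (by omega)
          · calc (r * 64 ^ (p.1 : ℕ)) ^ k * (r * 64 ^ (p.2 : ℕ)) ^ l
                ≤ 1 * (1 / m) ^ l := by
                  apply mul_le_mul (pow_le_one₀ g1 ((hle p.1).trans h1m))
                    (pow_le_pow_left₀ g2 (hle p.2) _) (pow_nonneg g2 _) zero_le_one
              _ ≤ (1 / m) ^ (D + 1) := by
                  rw [one_mul]
                  exact pow_le_pow_of_le_one g3 h1m (by omega)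
        have h1 : |∑ p, w p * (s p ^ k * t p ^ l)| ≤ 1 / 2 := by
          calc |∑ p, w p * (s p ^ k * t p ^ l)| ≤ ∑ p, |w p * (s p ^ k * t p ^ l)| :=
                abs_sum_le_sum_abs _ _
            _ ≤ ∑ p, w p * (1 / m) ^ (D + 1) := by
                apply sum_le_sum
                intro p _
                rw [abs_mul, abs_of_nonneg (hw0 p)]
                exact mul_le_mul_of_nonneg_left (hb p) (hw0 p)
            _ = (∑ p, w p) * (1 / m) ^ (D + 1) := by rw [sum_mul]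
            _ ≤ m ^ (D + 1) / 2 * (1 / m) ^ (D + 1) :=
                mul_le_mul_of_nonneg_right hwsum (by positivity)
            _ = 1 / 2 := by
                rw [div_mul_eq_mul_div, ← mul_pow]
                rw [mul_one_div_cancel hm0.ne', one_pow]
        exact (abs_le.1 h1).1)
    (by
      have e : (n : ℝ) * r ^ 2 / 4 = m ^ 4 / 4 := by
        rw [← hm8, hr]
        field_simp
      rw [e]
      have h1 : m ^ (D + 1) ≤ Real.exp (m ^ 4 / 4) := by
        have h2 : m ^ (D + 1) = Real.exp ((D + 1 : ℕ) * Real.log m) := by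
          rw [Real.exp_nat_mul, Real.exp_log hm0]
        have h3 : m ^ 4 = Real.exp (4 * Real.log m) := by
          rw [show (4 : ℝ) = ((4 : ℕ) : ℝ) by norm_num, Real.exp_nat_mul, Real.exp_log hm0]
        have h4 := Real.quadratic_le_exp_of_nonneg (x := 4 * Real.log m) (by positivity)
        rw [h2, Real.exp_le_exp, h3]
        push_cast
        nlinarith
      rw [Real.exp_neg]
      have h5 : 0 < Real.exp (m ^ 4 / 4) := Real.exp_pos _
      calc (∑ p, w p) * (Real.exp (m ^ 4 / 4))⁻¹ ≤ m ^ (D + 1) / 2 * (Real.exp (m ^ 4 / 4))⁻¹ :=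
            mul_le_mul_of_nonneg_right hwsum (inv_nonneg.2 h5.le)
        _ ≤ Real.exp (m ^ 4 / 4) / 2 * (Real.exp (m ^ 4 / 4))⁻¹ := by
            apply mul_le_mul_of_nonneg_right _ (inv_nonneg.2 h5.le)
            linarith
        _ = 1 / 2 := by field_simp)
  refine le_trans ?_ (hle'.trans (le_schrijver _ ha))
  refine le_trans ?_ hwone
  rw [hW]
  apply div_le_div_of_nonneg_right _ (by norm_num)
  have h2 : m ^ (D + 1) = Real.exp ((D + 1 : ℕ) * Real.log m) := by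
    rw [Real.exp_nat_mul, Real.exp_log hm0]
  rw [h2, Real.exp_le_exp]
  -- `log n < (D + 1) log (64 ^ 8)`
  have h3 : n < (64 ^ 8) ^ (D + 1) := Nat.lt_pow_succ_log_self (by norm_num) n
  have h4 : Real.log n ≤ (D + 1 : ℕ) * (48 * Real.log 2) := by
    have h5 : (n : ℝ) ≤ (2 : ℝ) ^ (48 * (D + 1)) := by
      rw [pow_mul]
      have : (2 : ℝ) ^ 48 = ((64 ^ 8 : ℕ) : ℝ) := by norm_num
      rw [this]
      exact_mod_cast h3.le
    have h6 := Real.log_le_log hn0 h5
    rw [Real.log_pow] at h6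
    push_cast at h6 ⊢
    linarith
  have h7 : Real.log 2 < 0.6931471808 := Real.log_two_lt_d9
  have h8 : (0 : ℝ) ≤ (D + 1 : ℕ) := Nat.cast_nonneg _
  have h9 : Real.log n ≤ (D + 1 : ℕ) * (267 / 8) := by
    refine h4.trans (mul_le_mul_of_nonneg_left ?_ h8)
    linarith
  rw [hlog] at h9 ⊢
  nlinarith

theorem superpolynomial (C : ℝ) : ∃ n : ℕ, 2 ≤ n ∧
    (n : ℝ) ^ C < schrijver (strongProduct (acuteGraph n) (acuteGraph n)) := by
  obtain ⟨n, hn⟩ := exists_nat_gt (Real.exp (267 * (|C| + 2)))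
  have hpos : (0 : ℝ) < Real.exp (267 * (|C| + 2)) := Real.exp_pos _
  have hn0 : (0 : ℝ) < n := hpos.trans hn
  have hl : 267 * (|C| + 2) < Real.log n := by
    rw [Real.lt_log_iff_exp_lt hn0]
    exact hn
  have hC := abs_nonneg C
  have hCl := le_abs_self C
  have h3 : (3 : ℝ) < n := by
    have h1 := Real.add_one_le_exp (267 * (|C| + 2))
    nlinarith
  have h3' : 3 < n := by exact_mod_cast h3
  refine ⟨n, by omega, lt_of_lt_of_le ?_ (main_bound (by omega))⟩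
  rw [Real.rpow_def_of_pos hn0]
  have h4 : Real.log n * C + 2 * Real.log n ≤ Real.log n ^ 2 / 267 := by
    nlinarith
  have h5 : Real.exp (Real.log n * C) * Real.exp (2 * Real.log n) ≤
      Real.exp (Real.log n ^ 2 / 267) := by
    rw [← Real.exp_add, Real.exp_le_exp]
    exact h4
  have h6 : Real.exp (2 * Real.log n) = (n : ℝ) ^ 2 := by
    rw [show (2 : ℝ) = ((2 : ℕ) : ℝ) by norm_num, Real.exp_nat_mul, Real.exp_log hn0]
  rw [h6] at h5
  have h7 := Real.exp_pos (Real.log n * C)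
  nlinarith [mul_pos h7 hn0]

end Pool.Agent.N343.Sch
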