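import Pool.Agent.N343.Sch.Defs

set_option autoImplicit false

/-!
The noise kernels on the cube `{1, -1} ^ n`.
-/

namespace Pool.Agent.N343.Sch

open Finset Matrix

/-- the real number `±1` -/
def rv (u : ℤˣ) : ℝ := ((u : ℤ) : ℝ)

theorem rv_cases (u : ℤˣ) : rv u = 1 ∨ rv u = -1 := by
  rcases Int.units_eq_one_or u with rfl | rfl
  · left; simp [rv]
  · right; simp [rv]

theorem rv_sq (u : ℤˣ) : rv u * rv u = 1 := by
  rcases rv_cases u with h | h <;> rw [h] <;> norm_num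

theorem sum_units {M : Type*} [AddCommMonoid M] (f : ℤˣ → M) : ∑ u, f u = f 1 + f (-1) := by
  have : (univ : Finset ℤˣ) = {1, -1} := by decide
  rw [this, sum_pair (by decide)]

/-- the noise kernel -/
noncomputable def P {n : ℕ} (ρ : ℝ) (x y : Fin n → ℤˣ) : ℝ :=
  ∏ i, (1 + ρ * (rv (x i) * rv (y i))) / 2

theorem P_nonneg {n : ℕ} {ρ : ℝ} (h : |ρ| ≤ 1) (x y : Fin n → ℤˣ) : 0 ≤ P ρ x y := by
  apply prod_nonneg
  intro i _
  have h1 := abs_le.1 h
  have : rv (x i) * rv (y i) = 1 ∨ rv (x i) * rv (y i) = -1 := by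
    rcases rv_cases (x i) with h | h <;> rcases rv_cases (y i) with h' | h' <;> rw [h, h'] <;>
      norm_num
  rcases this with h | h <;> rw [h] <;> linarith

theorem P_symm {n : ℕ} (ρ : ℝ) (x y : Fin n → ℤˣ) : P ρ x y = P ρ y x := by
  unfold P
  apply prod_congr rfl
  intro i _
  rw [mul_comm (rv (x i))]

theorem P_sum {n : ℕ} (ρ : ℝ) (x : Fin n → ℤˣ) : ∑ y, P ρ x y = 1 := by
  unfold P
  rw [← Fintype.prod_sum (fun (i : Fin n) (u : ℤˣ) => (1 + ρ * (rv (x i) * rv u)) / 2)]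
  apply prod_eq_one
  intro i _
  rw [sum_units]
  simp only [rv, Units.val_one, Int.cast_one, Units.val_neg, Int.cast_neg]
  ring

theorem P_one {n : ℕ} (x y : Fin n → ℤˣ) : P 1 x y = if x = y then 1 else 0 := by
  unfold P
  split_ifs with h
  · subst h
    apply prod_eq_one
    intro i _
    rw [rv_sq]
    norm_num
  · obtain ⟨i, hi⟩ := Function.ne_iff.1 h
    apply prod_eq_zero (mem_univ i)
    have : rv (x i) * rv (y i) = -1 := by
      rcases Int.units_eq_one_or (x i) with h1 | h1 <;>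
        rcases Int.units_eq_one_or (y i) with h2 | h2
      · exact absurd (h1.trans h2.symm) hi
      · rw [h1, h2]; simp [rv]
      · rw [h1, h2]; simp [rv]
      · exact absurd (h1.trans h2.symm) hi
    rw [this]
    norm_num

/-- the characters -/
def chi {n : ℕ} (S : Finset (Fin n)) (x : Fin n → ℤˣ) : ℝ := ∏ i ∈ S, rv (x i)

theorem P_fourier {n : ℕ} (ρ : ℝ) (x y : Fin n → ℤˣ) :
    P ρ x y = ∑ S : Finset (Fin n), (1 / 2) ^ n * ρ ^ S.card * (chi S x * chi S y) := by
  unfold P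
  have h : ∀ i : Fin n, (1 + ρ * (rv (x i) * rv (y i))) / 2 =
      (1 / 2) * (1 + ρ * (rv (x i) * rv (y i))) := fun i => by ring
  rw [prod_congr rfl fun i _ => h i, prod_mul_distrib, prod_const, card_univ, Fintype.card_fin,
    prod_one_add, powerset_univ, mul_sum]
  apply sum_congr rfl
  intro S _
  rw [prod_mul_distrib, prod_mul_distrib, prod_const]
  unfold chi
  ring

theorem cosh_aux {h ρ : ℝ} (h0 : 0 ≤ h) (h1 : h ≤ 1) (hρ : ρ ≤ -h) :
    Real.cosh h + ρ * Real.sinh h ≤ Real.exp (-(h ^ 2 / 4)) := by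
  have hs : h ≤ Real.sinh h := Real.self_le_sinh_iff.2 h0
  have hc := Real.cosh_le_exp_half_sq h
  have he : Real.exp (h ^ 2 / 2) ≤ 1 + h ^ 2 / 2 + (h ^ 2 / 2) ^ 2 := by
    have h2 : |h ^ 2 / 2| ≤ 1 := by
      rw [abs_of_nonneg (by positivity)]
      nlinarith
    have := Real.abs_exp_sub_one_sub_id_le h2
    have := (abs_le.1 this).2
    linarith
  have h3 : ρ * Real.sinh h ≤ -h * h := by nlinarith
  have h4 : 1 - h ^ 2 / 4 ≤ Real.exp (-(h ^ 2 / 4)) := by
    have := Real.add_one_le_exp (-(h ^ 2 / 4))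
    linarith
  nlinarith [mul_nonneg h0 h0, mul_nonneg (mul_nonneg h0 h0) (sub_nonneg.2 h1)]

/-- the tail bound -/
theorem P_tail {n : ℕ} {ρ h : ℝ} (h0 : 0 ≤ h) (h1 : h ≤ 1) (hρ : ρ ≤ -h) (hρ' : -1 ≤ ρ)
    (x : Fin n → ℤˣ) :
    ∑ y : Fin n → ℤˣ, (if 0 < ∑ i, ((x i : ℤˣ) : ℤ) * ((y i : ℤˣ) : ℤ) then P ρ x y else 0) ≤
      Real.exp (-(n * h ^ 2 / 4)) := by
  have habs : |ρ| ≤ 1 := abs_le.2 ⟨hρ', by linarith⟩
  calc ∑ y : Fin n → ℤˣ, (if 0 < ∑ i, ((x i : ℤˣ) : ℤ) * ((y i : ℤˣ) : ℤ) then P ρ x y else 0)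
      ≤ ∑ y : Fin n → ℤˣ, ∏ i, ((1 + ρ * (rv (x i) * rv (y i))) / 2 *
          Real.exp (h * (rv (x i) * rv (y i)))) := by
        apply sum_le_sum
        intro y _
        rw [prod_mul_distrib, ← Real.exp_sum, ← mul_sum]
        have hP := P_nonneg habs x y
        split_ifs with hp
        · have : (0 : ℝ) ≤ ∑ i, rv (x i) * rv (y i) := by
            unfold rv
            exact_mod_cast hp.le
          have h2 : 1 ≤ Real.exp (h * ∑ i, rv (x i) * rv (y i)) :=
            Real.one_le_exp (mul_nonneg h0 this)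
          exact le_mul_of_one_le_right hP h2
        · exact mul_nonneg hP (Real.exp_pos _).le
    _ = ∏ i : Fin n, ∑ u : ℤˣ, ((1 + ρ * (rv (x i) * rv u)) / 2 *
          Real.exp (h * (rv (x i) * rv u))) :=
        (Fintype.prod_sum (fun (i : Fin n) (u : ℤˣ) => (1 + ρ * (rv (x i) * rv u)) / 2 *
          Real.exp (h * (rv (x i) * rv u)))).symm
    _ = ∏ i : Fin n, (Real.cosh h + ρ * Real.sinh h) := by
        apply prod_congr rfl
        intro i _
        rw [sum_units, Real.cosh_eq, Real.sinh_eq]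
        have e1 : rv (1 : ℤˣ) = 1 := by simp [rv]
        have e2 : rv (-1 : ℤˣ) = -1 := by simp [rv]
        rw [e1, e2]
        rcases rv_cases (x i) with h | h <;> rw [h]
        · simp only [mul_one, mul_neg]; ring
        · simp only [mul_one, mul_neg, neg_neg]; ring
    _ ≤ ∏ i : Fin n, Real.exp (-(h ^ 2 / 4)) := by
        apply prod_le_prod
        · intro i _
          have hc : Real.sinh h ≤ Real.cosh h := (Real.sinh_lt_cosh h).le
          have hs : 0 ≤ Real.sinh h := Real.sinh_nonneg_iff.2 h0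
          nlinarith
        · intro i _
          exact cosh_aux h0 h1 hρ
    _ = Real.exp (-(n * h ^ 2 / 4)) := by
        rw [prod_const, card_univ, Fintype.card_fin, ← Real.exp_nat_mul]
        congr 1
        ring

end Pool.Agent.N343.Sch
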